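import Pool.Agent.W5h43.NA.FinE

/-!
# Algebraic extensions of arbitrary systems: the base is characteristic almost everywhere

`(Y, ν)` is an arbitrary probability space, `X` an arbitrary compact Hausdorff abelian group with
Haar probability `μ`, and `T_1, …, T_d` are invertible measure preserving maps of `Y × X` of the
form `T_i (y, x) = (S_i y, α_i x · c_i y)`. The bijections `S_i` of the base and the cocycles `c_i`
are arbitrary: nothing relates the `S_i` to each other, and the `T_i` need not generate a nilpotent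
group. The automorphisms `α_i` of the fibre `X` generate a nilpotent group `Γ` of any step, all of
whose elements except the identity are ergodic.

The proof rests on an independence theorem for polynomial sequences `b_1, …, b_m` in a torsion-free
nilpotent group acting without fixed points on an abelian group: if no `b_j` and no `b_i⁻¹ b_j` is
constant then `∑ b_j(n) u_j` is not constant on any residue class, unless all `u_j` are zero, and
takes each value at most `C N^(1-δ)` times in `[0, N)` (`Pool.Agent.W5h43.NA.indep`,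
`Pool.Agent.W5h43.NA.few`).
-/

set_option autoImplicit false

open Filter Topology MeasureTheory
open scoped ENNReal Polynomial

namespace Pool.Agent.Results.MP_4d8f14_an.AlgebraicExtensions

/-- The map `T_1^(P_1(n)) ⋯ T_d^(P_d(n))`. -/
def word {Z : Type} {d : ℕ} (T : Fin d → Equiv.Perm Z) (P : Fin d → ℤ[X]) (n : ℤ) : Equiv.Perm Z :=
  (List.ofFn fun i : Fin d => T i ^ (P i).eval n).prod

/-- Finite sums of products `h(y) u(x)`, `h` bounded and measurable on `Y`, `u` continuous. -/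
def Tensors (Y X : Type) [MeasurableSpace Y] [TopologicalSpace X] : Submodule ℂ (Y × X → ℂ) :=
  Submodule.span ℂ {f | ∃ (h : Y → ℂ) (u : X → ℂ), (Measurable h ∧ ∃ C : ℝ, ∀ y, ‖h y‖ ≤ C) ∧
    Continuous u ∧ f = fun z => h z.1 * u z.2}

/-- `f` is Riemann integrable in the fibre direction: for every `ε > 0` there are finite sums `F`,
`K` of products `h(y) u(x)` as above with `‖f - F‖ ≤ K` a.e. and `∫ K(y, x) dμ(x) ≤ ε` for a.e.
`y` (for `f ∈ Tensors Y X` take `F = f` and `K = 0`). -/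
def FibrewiseRiemann {X Y : Type} [TopologicalSpace X] [MeasurableSpace X] [MeasurableSpace Y]
    (μ : Measure X) (ν : Measure Y) (f : Y × X → ℂ) : Prop :=
  ∀ ε : ℝ, 0 < ε → ∃ (F : Y × X → ℂ) (K : Y × X → ℝ), F ∈ Tensors Y X ∧
    (fun z => (K z : ℂ)) ∈ Tensors Y X ∧ (∀ᵐ z ∂(ν.prod μ), ‖f z - F z‖ ≤ K z) ∧
    ∀ᵐ y ∂ν, ∫ x, K (y, x) ∂μ ≤ ε

/-- For every bounded measurable `G`, the averages `(1/(2N+1)) ∑_{|n| ≤ N} G (g n z)` of the single
function `G` along `g` converge for almost every `z`. -/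
def SingleAveragesConverge {Z : Type} [MeasurableSpace Z] (P : Measure Z) (g : ℤ → Equiv.Perm Z) :
    Prop :=
  ∀ G : Z → ℝ, Measurable G → (∃ C : ℝ, ∀ z, |G z| ≤ C) →
    ∀ᵐ z ∂P, ∃ L : ℝ, Tendsto (fun N : ℕ => ((2 * N + 1 : ℕ) : ℝ)⁻¹ *
      ∑ n ∈ Finset.Icc (-(N : ℤ)) (N : ℤ), G (g n z)) atTop (𝓝 L)

/-- Let `T_i (y, x) = (S_i y, α_i x · c_i y)` be invertible measure preserving maps of `Y × X`, where
the automorphisms `α_i` of `X` generate a nilpotent group all of whose elements `γ ≠ 1` are ergodic.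
Let `P_ij ∈ ℤ[n]`, `g_j(n) = T_1^(P_1j(n)) ⋯ T_d^(P_dj(n))` and `a_j(n) = α_1^(P_1j(n)) ⋯
α_d^(P_dj(n))`, and suppose that none of the sequences `a_j` and `a_i a_j⁻¹`, `i ≠ j`, is constant.
Let `f_1, …, f_m ∈ L^∞(ν × μ)` be such that for each `j`

* `f_j` is Riemann integrable in the fibre direction, or
* `g_j(n) = a^n b` for all `n`, for some `a`, `b` in the group generated by the `T_i` (and
  `f_j ∈ L^∞` is arbitrary), or
* the averages of single bounded functions along `g_j` converge a.e. (and `f_j` is arbitrary).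

Put `Ef_j(y) = ∫ f_j(y, x) dμ(x)`. Then the averages over `|n| ≤ N` of
`∏_j f_j (g_j(n) z) - ∏_j Ef_j (g_j(n) z)` tend to `0` for almost every `z`; hence for almost every
`z` the averages of `∏_j f_j (g_j(n) z)` converge if and only if those of `∏_j Ef_j (g_j(n) z)`,
which only depend on the base `Y`, do, and then to the same limit. -/
theorem result (d m : ℕ) {X Y : Type} [CommGroup X] [TopologicalSpace X]
    [IsTopologicalGroup X] [CompactSpace X] [T2Space X] [MeasurableSpace X] [BorelSpace X]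
    (μ : Measure X) [μ.IsHaarMeasure] [IsProbabilityMeasure μ]
    [MeasurableSpace Y] (ν : Measure Y) [IsProbabilityMeasure ν]
    (α : Fin d → Equiv.Perm X)
    (hα : ∀ i, (∀ x x', α i (x * x') = α i x * α i x') ∧ Continuous (α i))
    (hΓ : Group.IsNilpotent (Subgroup.closure (Set.range α)))
    (herg : ∀ γ ∈ Subgroup.closure (Set.range α), γ ≠ 1 → Ergodic γ μ)
    (S : Fin d → Equiv.Perm Y) (c : Fin d → Y → X) (T : Fin d → Equiv.Perm (Y × X))
    (hT : ∀ i y x, T i (y, x) = (S i y, α i x * c i y))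
    (hmp : ∀ i, MeasurePreserving (T i) (ν.prod μ) (ν.prod μ) ∧
      MeasurePreserving ((T i)⁻¹ : Equiv.Perm (Y × X)) (ν.prod μ) (ν.prod μ))
    (P : Fin m → Fin d → ℤ[X])
    (h₁ : ∀ j, ∃ n n' : ℤ, word α (P j) n ≠ word α (P j) n')
    (h₂ : ∀ i j, i ≠ j → ∃ n n' : ℤ,
      word α (P i) n * (word α (P j) n)⁻¹ ≠ word α (P i) n' * (word α (P j) n')⁻¹)
    (f : Fin m → Y × X → ℂ) (hf : ∀ j, MemLp (f j) ∞ (ν.prod μ))
    (hslot : ∀ j, FibrewiseRiemann μ ν (f j) ∨
      (∃ a ∈ Subgroup.closure (Set.range T), ∃ b ∈ Subgroup.closure (Set.range T), ∀ n : ℤ,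
        word T (P j) n = a ^ n * b) ∨
      SingleAveragesConverge (ν.prod μ) (word T (P j))) :
    (∀ᵐ z ∂(ν.prod μ), Tendsto (fun N : ℕ => ((2 * N + 1 : ℕ) : ℂ)⁻¹ *
      ∑ n ∈ Finset.Icc (-(N : ℤ)) (N : ℤ), (∏ j : Fin m, f j (word T (P j) n z) -
        ∏ j : Fin m, ∫ x, f j ((word T (P j) n z).1, x) ∂μ)) atTop (𝓝 0)) ∧
    ∀ᵐ z ∂(ν.prod μ), ∀ L : ℂ,
      Tendsto (fun N : ℕ => ((2 * N + 1 : ℕ) : ℂ)⁻¹ * ∑ n ∈ Finset.Icc (-(N : ℤ)) (N : ℤ),
        ∏ j : Fin m, f j (word T (P j) n z)) atTop (𝓝 L) ↔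
      Tendsto (fun N : ℕ => ((2 * N + 1 : ℕ) : ℂ)⁻¹ * ∑ n ∈ Finset.Icc (-(N : ℤ)) (N : ℤ),
        ∏ j : Fin m, ∫ x, f j ((word T (P j) n z).1, x) ∂μ) atTop (𝓝 L) := by
  have hcard : ∀ N : ℕ, (Pool.Agent.W5h43.NA.BI N).card = 2 * N + 1 :=
    fun N => Pool.Agent.TH739.PA.Icc_card N
  have key : ∀ᵐ z ∂(ν.prod μ), Tendsto (fun N : ℕ => ((2 * N + 1 : ℕ) : ℂ)⁻¹ *
      ∑ n ∈ Finset.Icc (-(N : ℤ)) (N : ℤ), (∏ j : Fin m, f j (word T (P j) n z) -
        ∏ j : Fin m, ∫ x, f j ((word T (P j) n z).1, x) ∂μ)) atTop (𝓝 0) := by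
    have h := Pool.Agent.W5h43.NA.ext_top (μ := μ) (ν := ν) hα hΓ herg hT hmp (fun i j => P j i)
      h₁ h₂ hf (fun j => by
        rcases hslot j with h | h | h
        · exact Or.inl h
        · exact Or.inr (Or.inl h)
        · refine Or.inr (Or.inr fun G hG hC => ?_)
          filter_upwards [h G hG hC] with z hz
          obtain ⟨L, hL⟩ := hz
          refine ⟨L, hL.congr fun N => ?_⟩
          unfold Pool.Agent.TH739.PA.avr
          rw [hcard]
          rfl)
    filter_upwards [h] with z hz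
    refine hz.congr fun N => ?_
    unfold Pool.Agent.TH739.PA.av
    rw [hcard]
    rfl
  refine ⟨key, ?_⟩
  filter_upwards [key] with z hz L
  constructor
  · intro h
    have h1 := h.sub hz
    rw [sub_zero] at h1
    refine h1.congr fun N => ?_
    rw [← mul_sub, ← Finset.sum_sub_distrib]
    simp only [sub_sub_cancel]
  · intro h
    have h1 := hz.add h
    rw [zero_add] at h1
    refine h1.congr fun N => ?_
    rw [← mul_add, ← Finset.sum_add_distrib]
    simp only [sub_add_cancel]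

end Pool.Agent.Results.MP_4d8f14_an.AlgebraicExtensions
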