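import Pool.Agent.W5h67.NF.Blk6
import Pool.Agent.W5h67.NF.NilSub

set_option autoImplicit false

/-!
# The averages of the problem for almost every tuple of elements of nilpotent Lie groups

Let a nilpotent Lie group `G`, connected and simply connected, act measurably on a probability space `(X, μ)`,
preserving `μ`, and let `T_i = exp(v_i)`, `i = 1, ..., d`. For almost every tuple `(v_1, ..., v_d)` of elements of the
Lie algebra the averages of the problem converge for almost every `x`, for all integer polynomials `P_ij` with zero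
constant term such that the columns `(P_1j, ..., P_dj)` satisfy the following condition: in every set of columns some
linear combination of the rows singles out one polynomial of larger degree than the others (`Lead`). This allows
columns such as `(n, 0), (0, n)`, where all polynomials have the same degree, and for `m = 1` there is no condition.

The theorem is more general. There are `B` blocks of `d` letters, the block `b` generic in its own nilpotent group,
without any relation between the blocks or between the factors: `T_bij = e_bj(v_bi)`, where `e_bj : ℝ ^ K → G` are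
exponential coordinates of a nilpotent subgroup of an arbitrary group `G` (`IsNil`), and

  `g_j(n) = ∏_b ∏_i T_bij ^ (P_bij(n))`.

`B = 1` and `e_1j = e` is the setting of the problem; for `K = 1` the letters are times of arbitrary flows (a single
one-parameter group is nilpotent), which generate no nilpotent or solvable group in general. For almost every
`v = (v_bi)`, for all integer polynomials with zero constant term such that in every block the nonzero columns satisfy
the condition `Lead`, where columns `j`, `j'` need only be compared if the words `j`, `j'` do not agree from this block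
on (`IsTree`), for almost every `x`:

1. the averages of `∏_j f_j(g_j(n) x)` over `|n| ≤ N` converge to some `L(x)`;
2. the averages of `W_n(x) (∏_j f_j(g_j(n) x) - L(x))` tend to `0` for any given uniformly bounded measurable weights,
   for instance `W_n(x) = ∏ h_k(S_k^n x)` with arbitrary maps `S_k`;
3. if all nonzero columns in every block satisfy the condition (`Indep`), then `L = ∏_j E_Bj ... E_1j f_j`, where
   `E_bj` is the conditional expectation on the sets invariant under all `e_bj(v)`, and the identity if the column is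
   `0`. These expectations do not commute in general. For `B = 1`, `L = ∏_j E(f_j | invariant sets)`.

Proof. The blocks are removed one after the other, the outermost first, and in each block the coordinates
`l = K - 1, ..., 0`: the functions are already invariant under the subgroup generated by the `e(s b_i)`, `i > l`. Then
one may replace `v_i` by `a_i v_i + (w c_i + y_i) b_l` in this block, and `v` by `a v` in all later blocks, and the word
becomes `e(s b_l)` with `s = w c(P_j)(n) + ∑ y_i P_ij(n)` times the word in the dilated parameters, for the given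
functions. The column singled out by `c` is decoupled from all other factors and from the weights by the randomness of
the single parameter `w`: its function may be replaced by the conditional expectation on the sets invariant under
`s ↦ e(s b_l)`. The other factors and parameters only enter through mean square bounds over `a`, `y` along words in
arbitrary flows (`dec` in `Dec.lean`). Almost every `(w, y, a)` gives almost every `v`, since `v ↦ a v + c` is
invertible. If words agree from a block on, their functions are multiplied first.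
-/

namespace Pool.Agent.Results.MP_4d8f14_an.GenericNilpotentWords

open MeasureTheory Filter Finset

universe u v

/-- the subgroup generated by the elements `e (s b_l)`, `l ≥ n`, where `b_0, ..., b_(K-1)` is the standard basis -/
def sub {G : Type v} [Group G] {K : ℕ} (e : (Fin K → ℝ) → G) (n : ℕ) : Subgroup G :=
  Subgroup.closure {g | ∃ (l : Fin K) (s : ℝ), n ≤ (l : ℕ) ∧ g = e (Pi.single l s)}

/-- `e` are exponential coordinates of a nilpotent subgroup of `G`, which acts measurably and preserves `μ` -/
structure IsNil {X : Type u} [MeasurableSpace X] (μ : Measure X) {G : Type v} [Group G] [MulAction G X] {K : ℕ}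
    (e : (Fin K → ℝ) → G) : Prop where
  add : ∀ (s t : ℝ) (v : Fin K → ℝ), e ((s + t) • v) = e (s • v) * e (t • v)
  split : ∀ (v : Fin K → ℝ) (l : Fin K) (s : ℝ),
    e (v + Pi.single l s) * (e v * e (Pi.single l s))⁻¹ ∈ sub e (l + 1)
  comm : ∀ g ∈ sub e 0, ∀ (l : Fin K) (s : ℝ), g * e (Pi.single l s) * g⁻¹ * (e (Pi.single l s))⁻¹ ∈ sub e (l + 1)
  meas : Measurable fun p : (Fin K → ℝ) × X => e p.1 • p.2
  mp : ∀ v, MeasurePreserving (fun x : X => e v • x) μ μ

/-- `f` is in `L^∞` -/
def EssBdd {X : Type u} [MeasurableSpace X] (μ : Measure X) (f : X → ℂ) : Prop :=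
  AEStronglyMeasurable f μ ∧ ∃ C : ℝ, ∀ᵐ x ∂μ, ‖f x‖ ≤ C

/-- uniformly bounded measurable weights -/
def Weights {X : Type u} [MeasurableSpace X] (μ : Measure X) (W : ℤ → X → ℂ) : Prop :=
  (∀ n, AEStronglyMeasurable (W n) μ) ∧ ∃ C : ℝ, ∀ n, ∀ᵐ x ∂μ, ‖W n x‖ ≤ C

/-- the average of `c` over `|n| ≤ N` -/
noncomputable def avg (N : ℕ) (c : ℤ → ℂ) : ℂ := (1 / (2 * (N : ℂ) + 1)) * ∑ n ∈ Icc (-(N : ℤ)) N, c n

/-- the word `∏_b ∏_i T_bi ^ p_bi`, in the order `b = 0, ..., B - 1`, `i = 0, ..., d - 1` -/
def word {G : Type v} [Group G] {B d : ℕ} (T : Fin B → Fin d → G) (p : Fin B → Fin d → ℤ) : G :=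
  (List.ofFn fun b => (List.ofFn fun i => T b i ^ p b i).prod).prod

/-- the polynomial `c_1 P_1j + ... + c_d P_dj` -/
noncomputable def comb {d m : ℕ} (c : Fin d → ℝ) (P : Fin d → Fin m → Polynomial ℤ) (j : Fin m) : Polynomial ℝ :=
  ∑ i, Polynomial.C (c i) * (P i j).map (Int.castRingHom ℝ)

/-- there are real numbers `c_1, ..., c_d` such that one of the polynomials `c_1 P_1j + ... + c_d P_dj`, `j` in `S`, is
not constant and has larger degree than all the others -/
def Lead {d m : ℕ} (P : Fin d → Fin m → Polynomial ℤ) (S : Finset (Fin m)) : Prop :=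
  ∃ c : Fin d → ℝ, ∃ a ∈ S, 0 < (comb c P a).natDegree ∧
    ∀ j ∈ S, j ≠ a → (comb c P j).natDegree < (comb c P a).natDegree

/-- the words `j` and `j'` agree from the block `b` on -/
def Agree {G : Type v} {B d K m : ℕ} (e : Fin B → Fin m → (Fin K → ℝ) → G)
    (P : Fin B → Fin d → Fin m → Polynomial ℤ) (b : Fin B) (j j' : Fin m) : Prop :=
  ∀ l, b ≤ l → e l j = e l j' ∧ ∀ i, P l i j = P l i j'

/-- in every block, `Lead` holds for every nonempty set of nonzero columns no two of which belong to words agreeing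
from this block on -/
def IsTree {G : Type v} {B d K m : ℕ} (e : Fin B → Fin m → (Fin K → ℝ) → G)
    (P : Fin B → Fin d → Fin m → Polynomial ℤ) : Prop :=
  ∀ (b : Fin B) (S : Finset (Fin m)), S.Nonempty → (∀ j ∈ S, ∃ i, P b i j ≠ 0) →
    (∀ j ∈ S, ∀ j' ∈ S, Agree e P b j j' → j = j') → Lead (P b) S

/-- in every block, `Lead` holds for every nonempty set of nonzero columns -/
def Indep {B d m : ℕ} (P : Fin B → Fin d → Fin m → Polynomial ℤ) : Prop :=
  ∀ (b : Fin B) (S : Finset (Fin m)), S.Nonempty → (∀ j ∈ S, ∃ i, P b i j ≠ 0) → Lead (P b) S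

/-- the measurable sets which are invariant, up to null sets, under all `e v` -/
@[reducible] def inv {X : Type u} [mX : MeasurableSpace X] (μ : Measure X) {G : Type v} [Group G] [MulAction G X]
    {K : ℕ} (e : (Fin K → ℝ) → G) : MeasurableSpace X where
  MeasurableSet' A := MeasurableSet[mX] A ∧ ∀ v, (fun x : X => e v • x) ⁻¹' A =ᵐ[μ] A
  measurableSet_empty := ⟨@MeasurableSet.empty _ mX, fun _ => by rw [Set.preimage_empty]⟩
  measurableSet_compl A hA := ⟨hA.1.compl, fun v => by
    rw [Set.preimage_compl]
    exact (hA.2 v).compl⟩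
  measurableSet_iUnion A hA := ⟨MeasurableSet.iUnion fun i => (hA i).1, fun v => by
    rw [Set.preimage_iUnion]
    exact Filter.EventuallyEq.countable_iUnion fun i => (hA i).2 v⟩

/-- the iterated conditional expectation `E_(B-1) ... E_0 f`, where `E_b` is the conditional expectation on `I b` if
`c b` holds, and the identity otherwise -/
noncomputable def iter {X : Type u} [MeasurableSpace X] (μ : Measure X) :
    (B : ℕ) → (Fin B → MeasurableSpace X) → (Fin B → Prop) → (X → ℂ) → X → ℂ
  | 0, _, _, f => f
  | B + 1, I, c, f => open Classical in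
    iter μ B (fun b => I b.succ) (fun b => c b.succ) (if c 0 then μ[f | I 0] else f)

theorem iter_eq {X : Type u} [MeasurableSpace X] (μ : Measure X) (B : ℕ) (I : Fin B → MeasurableSpace X)
    (c : Fin B → Prop) (f : X → ℂ) : iter μ B I c f = Pool.Agent.W5h67.NF.itC μ B I c f := by
  induction B generalizing f with
  | zero => rfl
  | succ B ih =>
    unfold iter Pool.Agent.W5h67.NF.itC
    exact ih _ _ _

theorem exists_rep {G : Type v} {B d K m : ℕ} (e : Fin B → Fin m → (Fin K → ℝ) → G)
    (P : Fin B → Fin d → Fin m → Polynomial ℤ) : ∃ κ : Fin B → Fin m → Fin m,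
      (∀ b j, Agree e P b (κ b j) j) ∧ ∀ b j j', Agree e P b j j' → κ b j = κ b j' := by
  have hs : ∀ b j j', Agree e P b j j' → Agree e P b j' j := fun b j j' h l hl =>
    ⟨(h l hl).1.symm, fun i => ((h l hl).2 i).symm⟩
  have ht : ∀ b j j' j'', Agree e P b j j' → Agree e P b j' j'' → Agree e P b j j'' := fun b j j' j'' h h' l hl =>
    ⟨(h l hl).1.trans (h' l hl).1, fun i => ((h l hl).2 i).trans ((h' l hl).2 i)⟩
  let s : Fin B → Setoid (Fin m) := fun b =>
    ⟨Agree e P b, ⟨fun j l _ => ⟨rfl, fun _ => rfl⟩, fun {_ _} h => hs b _ _ h, fun {_ _ _} h h' => ht b _ _ _ h h'⟩⟩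
  refine ⟨fun b j => (Quotient.mk (s b) j).out, fun b j => ?_, fun b j j' h => ?_⟩
  · exact Quotient.exact (s := s b) (Quotient.out_eq _)
  · show (Quotient.mk (s b) j).out = (Quotient.mk (s b) j').out
    rw [Quotient.sound (s := s b) (show Agree e P b j j' from h)]

theorem result {X : Type u} [MeasurableSpace X] (μ : Measure X) [IsProbabilityMeasure μ] {G : Type v} [Group G]
    [MulAction G X] {B d K m : ℕ} (e : Fin B → Fin m → (Fin K → ℝ) → G) (he : ∀ b j, IsNil μ (e b j))
    (f : Fin m → X → ℂ) (hf : ∀ j, EssBdd μ (f j)) (W : ℤ → X → ℂ) (hW : Weights μ W) :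
    ∀ᵐ v : Fin B → Fin d → Fin K → ℝ, ∀ P : Fin B → Fin d → Fin m → Polynomial ℤ,
      (∀ b i j, (P b i j).eval 0 = 0) → IsTree e P → ∀ᵐ x ∂μ, ∃ L : ℂ,
        Tendsto (fun N => avg N fun n => ∏ j, f j (word (fun b i => e b j (v b i)) (fun b i => (P b i j).eval n) • x))
          atTop (nhds L) ∧
        Tendsto (fun N => avg N fun n => W n x *
          (∏ j, f j (word (fun b i => e b j (v b i)) (fun b i => (P b i j).eval n) • x) - L)) atTop (nhds 0) ∧
        (Indep P → L = ∏ j, iter μ B (fun b => inv μ (e b j)) (fun b => ∃ i, P b i j ≠ 0) (f j) x) := by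
  choose g hgm hgb hfg using fun j => Pool.Agent.W5h67.NF.exists_version (hf j).1 (hf j).2
  obtain ⟨V, hVm, hVb, hWV⟩ := Pool.Agent.W5h67.NF.weights_version hW.1 hW.2
  have he' : ∀ b j, Pool.Agent.W5h67.NF.Nil μ (Pool.Agent.W5h67.NF.eS (he b j).add (he b j).split) := fun b j =>
    Pool.Agent.W5h67.NF.nil_sub (he b j).add (he b j).split (he b j).comm (he b j).meas (he b j).mp
  have := Pool.Agent.W5h67.NF.countable_int
  rw [ae_all_iff]
  intro P
  by_cases hP : ∀ b i j, (P b i j).eval 0 = 0
  swap
  · exact ae_of_all _ fun v h => absurd h hP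
  by_cases hT : IsTree e P
  swap
  · exact ae_of_all _ fun v _ h => absurd h hT
  set R : Fin B → Fin d → Fin m → Polynomial ℝ := fun b i j => (P b i j).map (Int.castRingHom ℝ) with hR
  have hev : ∀ b i j (n : ℤ), (R b i j).eval (n : ℝ) = (((P b i j).eval n : ℤ) : ℝ) := by
    intro b i j n
    show ((P b i j).map (Int.castRingHom ℝ)).eval (n : ℝ) = _
    rw [Polynomial.eval_map, Polynomial.eval₂_at_intCast]
    simp
  have hR0 : ∀ b i j, (R b i j).eval 0 = 0 := by
    intro b i j
    have h := hev b i j 0
    rwa [hP b i j, Int.cast_zero] at h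
  have hRne : ∀ b i j, R b i j ≠ 0 ↔ P b i j ≠ 0 := by
    intro b i j
    rw [not_iff_not]
    exact Polynomial.map_eq_zero_iff (RingHom.injective_int _)
  have hLd : ∀ (b : Fin B) (S : Finset (Fin m)), Lead (P b) S → ∃ φ : Fin d → ℝ, ∃ a ∈ S,
      0 < (Pool.Agent.W5h67.NF.cmb φ (R b) a).natDegree ∧ ∀ j ∈ S, j ≠ a →
        (Pool.Agent.W5h67.NF.cmb φ (R b) j).natDegree < (Pool.Agent.W5h67.NF.cmb φ (R b) a).natDegree ∧
        (Pool.Agent.W5h67.NF.cmb φ (R b) j = 0 ∨ 0 < (Pool.Agent.W5h67.NF.cmb φ (R b) j).natDegree) := by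
    intro b S h
    obtain ⟨c, a, ha, h1, h2⟩ := h
    refine ⟨c, a, ha, h1, fun j hj hja => ⟨h2 j hj hja, Pool.Agent.W5h67.NF.zero_or ?_⟩⟩
    rw [Pool.Agent.W5h67.NF.cmb_eval]
    simp [hR0]
  -- representatives
  obtain ⟨κ, hκ, hAdm, hid⟩ : ∃ κ : Fin B → Fin m → Fin m, (∀ b j, κ b (κ b j) = κ b j) ∧
      Pool.Agent.W5h67.NF.Adm X (fun b j => Pool.Agent.W5h67.NF.eS (he b j).add (he b j).split) κ
        (fun b j => ∃ i, P b i j ≠ 0) R ∧ (Indep P → ∀ b j, κ b j = j) := by
    by_cases hI : Indep P
    · refine ⟨fun _ j => j, fun _ _ => rfl, ⟨fun b i j => Pool.Agent.W5h67.NF.zero_or (hR0 b i j), fun b j => ?_,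
        fun b l _ j => ⟨fun _ _ => rfl, fun _ => rfl⟩, fun b T hT' S hS hST => ?_⟩, fun _ _ _ => rfl⟩
      · simp only [hRne]
      · exact hLd b S (hI b S hS fun j hj => (hT' j (hST hj)).2)
    · obtain ⟨κ, h1, h2⟩ := exists_rep e P
      refine ⟨κ, fun b j => h2 b _ _ (h1 b j), ⟨fun b i j => Pool.Agent.W5h67.NF.zero_or (hR0 b i j), fun b j => ?_,
        fun b l hbl j => ⟨fun v x => ?_, fun i => ?_⟩, fun b T hT' S hS hST => ?_⟩, fun h => absurd h hI⟩
      · simp only [hRne]
      · show e l (κ b j) v • x = e l j v • x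
        rw [(h1 b j l hbl).1]
      · show (P l i (κ b j)).map (Int.castRingHom ℝ) = (P l i j).map (Int.castRingHom ℝ)
        rw [(h1 b j l hbl).2]
      · refine hLd b S (hT b S hS (fun j hj => (hT' j (hST hj)).2) fun j hj j' hj' h => ?_)
        have h3 := h2 b j j' h
        rwa [(hT' j (hST hj)).1, (hT' j' (hST hj')).1] at h3
  obtain ⟨L, hL1, hL2⟩ := Pool.Agent.W5h67.NF.two_blk (d := d) B he' hκ (fun b j => ∃ i, P b i j ≠ 0) hgm hgb
  have h1 := hL1 R hAdm (fun _ _ => 1) (fun _ => measurable_const) ⟨1, fun _ _ => by simp⟩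
  have h2 := hL1 R hAdm V hVm hVb
  filter_upwards [h1, h2] with v hv1 hv2 _ _
  have hw : ∀ (n : ℤ) (j : Fin m) (x : X), word (fun b i => e b j (v b i)) (fun b i => (P b i j).eval n) • x =
      Pool.Agent.W5h67.NF.pt (fun b j => Pool.Agent.W5h67.NF.eS (he b j).add (he b j).split) R j (n : ℝ) v x := by
    intro n j x
    unfold word Pool.Agent.W5h67.NF.pt Pool.Agent.W5h67.NF.wB
    rw [Pool.Agent.W5h67.NF.cmp_smul]
    congr 1
    funext b y
    show _ = ((Pool.Agent.W5h67.NF.wR (Pool.Agent.W5h67.NF.eS (he b j).add (he b j).split) _ (v b) :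
      Pool.Agent.W5h67.NF.NN (e b j) 0) : G) • y
    rw [Pool.Agent.W5h67.NF.wR_sub]
    congr 1
    unfold Pool.Agent.W5h67.NF.wR
    congr 2
    funext i
    rw [Pool.Agent.W5h67.NF.exp_zpow (e := fun _ : Fin 1 => e b j) (fun _ => (he b j).add) 0 (v b i)]
    show e b j ((((P b i j).eval n : ℤ) : ℝ) • v b i) = e b j ((R b i j).eval (n : ℝ) • v b i)
    rw [hev]
  have h3 : ∀ᵐ x ∂μ, ∀ (n : ℤ) (j : Fin m),
      f j (Pool.Agent.W5h67.NF.pt (fun b j => Pool.Agent.W5h67.NF.eS (he b j).add (he b j).split) R j (n : ℝ) v x) =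
      g j (Pool.Agent.W5h67.NF.pt (fun b j => Pool.Agent.W5h67.NF.eS (he b j).add (he b j).split) R j (n : ℝ) v x) := by
    rw [ae_all_iff]
    intro n
    rw [ae_all_iff]
    intro j
    exact (Pool.Agent.W5h67.NF.wB_mp (fun b => he' b j) _ v).quasiMeasurePreserving.ae (hfg j)
  have h4 : ∀ᵐ x ∂μ, ∀ j, iter μ B (fun b => inv μ (e b j)) (fun b => ∃ i, P b i j ≠ 0) (f j) x =
      Pool.Agent.W5h67.NF.itC μ B (fun b => Pool.Agent.W5h67.NF.IG μ
        (Pool.Agent.W5h67.NF.eS (he b j).add (he b j).split)) (fun b => ∃ i, P b i j ≠ 0) (g j) x := by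
    rw [ae_all_iff]
    intro j
    rw [iter_eq]
    exact Pool.Agent.W5h67.NF.itC_congr (hfg j)
  have h5 : ∀ᵐ x ∂μ, Indep P → L x = ∏ j, Pool.Agent.W5h67.NF.itC μ B (fun b => Pool.Agent.W5h67.NF.IG μ
        (Pool.Agent.W5h67.NF.eS (he b j).add (he b j).split)) (fun b => ∃ i, P b i j ≠ 0) (g j) x := by
    by_cases hI : Indep P
    · filter_upwards [hL2 (hid hI)] with x hx _ using hx
    · exact ae_of_all _ fun x h => absurd h hI
  filter_upwards [hv1, hv2, h3, h4, h5, hWV] with x hx1 hx2 hx3 hx4 hx5 hx6
  simp only [one_mul] at hx1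
  refine ⟨L x, ?_, ?_, fun hI => ?_⟩
  · unfold avg
    simp only [hw, hx3]
    exact Pool.Agent.W5h67.NF.avg_of_diff hx1
  · unfold avg
    simp only [hw, hx3, hx6]
    exact hx2
  · rw [hx5 hI]
    exact (prod_congr rfl fun j _ => hx4 j).symm

end Pool.Agent.Results.MP_4d8f14_an.GenericNilpotentWords
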