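import Pool.Agent.W5h43.NA.Fin

/-!
# Nilpotent groups of affine maps of compact abelian groups, polynomial exponents

`X` is an arbitrary compact Hausdorff abelian group with its Haar probability measure `μ`, and
`T_1, …, T_d` are affine bijections `x ↦ α_i x · c_i`, `α_i` a continuous homomorphism (so `α_i` is
an automorphism), which generate a nilpotent group of any step. They need not commute. No
ergodicity, mixing, expansiveness, entropy, Noetherian, connectedness or metrizability assumption
is made, and the polynomials are arbitrary.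

The proof shows, for a finitely generated module `M` over a finitely generated nilpotent group `G`
and polynomial sequences `b_1, …, b_m` in `G`, that a sum `∑ b_j(n) u_j` of orbits is, on each
residue class of a suitable modulus, either constant or takes each value at most `C N^(1-δ)` times
in `[0, N)`, with constants which depend only on `M` and the number of terms
(`Pool.Agent.W5h43.NA.dich_all`, `Pool.Agent.W5h43.NA.values`).
-/

set_option autoImplicit false

open Filter Topology MeasureTheory
open scoped ENNReal Polynomial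

namespace Pool.Agent.Results.MP_4d8f14_an.NilpotentAffineActions

/-- `f` lies, almost everywhere, between continuous functions with arbitrarily close integrals
(for real `f`: `f` is Riemann integrable; continuous functions are an example, `u = f`, `K = 0`). -/
def RiemannIntegrable {X : Type} [TopologicalSpace X] [MeasurableSpace X] (μ : Measure X)
    (f : X → ℂ) : Prop :=
  ∀ ε : ℝ, 0 < ε → ∃ (u : X → ℂ) (K : X → ℝ), Continuous u ∧ Continuous K ∧
    (∀ᵐ x ∂μ, ‖f x - u x‖ ≤ K x) ∧ ∫ x, K x ∂μ ≤ ε

/-- For every bounded measurable `G`, the averages `(1/(2N+1)) ∑_{|n| ≤ N} G (g n x)` of the single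
function `G` along `g` converge for almost every `x`. -/
def SingleAveragesConverge {X : Type} [MeasurableSpace X] (μ : Measure X) (g : ℤ → Equiv.Perm X) :
    Prop :=
  ∀ G : X → ℝ, Measurable G → (∃ C : ℝ, ∀ x, |G x| ≤ C) →
    ∀ᵐ x ∂μ, ∃ L : ℝ, Tendsto (fun N : ℕ => ((2 * N + 1 : ℕ) : ℝ)⁻¹ *
      ∑ n ∈ Finset.Icc (-(N : ℤ)) (N : ℤ), G (g n x)) atTop (𝓝 L)

/-- Let `T_1, …, T_d` be affine bijections of a compact Hausdorff abelian group `X` with Haar
probability `μ` which generate a nilpotent group `G`, let `P_ij ∈ ℤ[n]` be arbitrary polynomials,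
`g_j(n) = T_1^(P_1j(n)) ⋯ T_d^(P_dj(n))`, and `f_1, …, f_m ∈ L^∞(μ)`. Suppose that for each `j`

* `f_j` is Riemann integrable, for example continuous, or
* `X` is metrizable and `f_j` is continuous at almost every point, or
* `g_j(n) = a^n b` for all `n`, for some `a, b ∈ G` (and `f_j ∈ L^∞` is arbitrary), or
* the averages of single bounded functions along `g_j` converge a.e. (and `f_j` is arbitrary).

Then `(1/(2N+1)) ∑_{|n| ≤ N} f_1 (g_1(n) x) ⋯ f_m (g_m(n) x)` converges for almost every `x`. -/
theorem result (d m : ℕ) {X : Type} [CommGroup X] [TopologicalSpace X]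
    [IsTopologicalGroup X] [CompactSpace X] [T2Space X] [MeasurableSpace X] [BorelSpace X]
    (μ : Measure X) [μ.IsHaarMeasure] [IsProbabilityMeasure μ]
    (T : Fin d → Equiv.Perm X)
    (hT : ∀ i, ∃ (α : X →ₜ* X) (c : X), ∀ x, T i x = α x * c)
    (hG : Group.IsNilpotent (Subgroup.closure (Set.range T)))
    (P : Fin d → Fin m → ℤ[X]) (f : Fin m → X → ℂ) (hf : ∀ j, MemLp (f j) ∞ μ)
    (hslot : ∀ j, RiemannIntegrable μ (f j) ∨
      (TopologicalSpace.MetrizableSpace X ∧ ∀ᵐ x ∂μ, ContinuousAt (f j) x) ∨
      (∃ a ∈ Subgroup.closure (Set.range T), ∃ b ∈ Subgroup.closure (Set.range T), ∀ n : ℤ,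
        (List.ofFn fun i : Fin d => T i ^ (P i j).eval n).prod = a ^ n * b) ∨
      SingleAveragesConverge μ fun n => (List.ofFn fun i : Fin d => T i ^ (P i j).eval n).prod) :
    ∀ᵐ x ∂μ, ∃ L : ℂ, Tendsto (fun N : ℕ => ((2 * N + 1 : ℕ) : ℂ)⁻¹ *
      ∑ n ∈ Finset.Icc (-(N : ℤ)) (N : ℤ), ∏ j : Fin m, f j ((List.ofFn fun i : Fin d =>
        T i ^ (P i j).eval n).prod x)) atTop (𝓝 L) :=
  Pool.Agent.W5h43.NA.nil_top hT hG P hf hslot

end Pool.Agent.Results.MP_4d8f14_an.NilpotentAffineActions
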