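import Pool.Agent.W5h42.PK.Main

/-!
# The Pinsker factor is characteristic almost everywhere, with all deterministic weights at once

A group `G` acts by measure preserving bijections `Φ g` of a probability space `(X, μ)`. Nothing is
assumed about the action. `G` has a right invariant total order and a Følner sequence `F N`, and
`ℓ : G → ℝ` is a homomorphism which is monotone for the order. For commuting `T_1, ..., T_d` take
`G = ℤ^d`, `ℓ` injective, `g < h` if `ℓ g < ℓ h`, and boxes `F N`; torsion-free nilpotent groups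
have such orders and Følner sequences as well, for every given homomorphism `ℓ`.

`pinsker μ Φ F` is the Pinsker `σ`-algebra `Π` of the action: it is generated by the sets `B` for
which the entropy of the partition generated by the `(Φ g)⁻¹ B`, `g ∈ F N`, divided by the number of
the elements of `F N`, tends to zero.

`q_1, ..., q_m : ℤ → G` are sequences whose levels `ℓ (q_j n) = λ_j(n)` are polynomials; for
`q_j(n) = T_1^(P_1j n) ... T_d^(P_dj n)` one has `λ_j = ∑_i ℓ(T_i) P_ij`. Either `q_j(n) = b_j^n`,
or the averages of single bounded functions along `q_j` converge almost everywhere.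

`S` is a set of slots `j` such that the `λ_j`, `j ∈ S`, and their differences are not constant; the
levels of the slots outside `S` are much lower than those of the slots in `S`, in both directions
(`S` may be the set of all slots, in which case there is no such condition; for `G = ℤ^d` and an
injective `ℓ` it is then only assumed that the `q_j` and the `q_i q_j⁻¹`, `i ≠ j`, are not constant).

Hence for commuting maps and linear exponents the question for arbitrary functions is reduced to
functions measurable with respect to the Pinsker algebra, that is, to `ℤ^d`-actions of zero entropy;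
and the averages tend to zero almost everywhere if `E(f_j|Π) = 0` for one `j`.

Proof. Let `α` be a finite partition. The sets in the remote past `⋂_t σ(α ∘ Φ g : ℓ g ≤ -t)` have
zero entropy (`Pool.Agent.W5h42.PK.tail_zero`, by comparing two estimates of the entropy of the names
of `α` and of the set over `F N`; no generators and no infinite partitions are needed). The remote
past is a characteristic factor for functions measurable with respect to `α`, by
`Pool.Agent.W5h42.KW.two_sided_ww` (from `MP_4d8f14_an.DeterministicWeights`, which treats Kolmogorov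
extensions). Approximate the `f_j` and the `E(f_j|Π)` uniformly by functions measurable with respect
to a finite partition and compare the two.
-/

set_option autoImplicit false

open Filter Topology MeasureTheory
open scoped ENNReal

namespace Pool.Agent.Results.MP_4d8f14_an.PinskerFactor

open Pool.Agent.W5h42.KW Pool.Agent.W5h42.PK
open Pool.Agent.W761.Gauss (BM_of_memLp)

open Classical in
/-- (1) For almost every `x`, for ALL bounded deterministic sequences `w` the averages over
`|n| ≤ N` of `w_n (∏_j f_j(q_j(n) x) - ∏_(j ∈ S) E(f_j|Π)(q_j(n) x) ∏_(j ∉ S) f_j(q_j(n) x))`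
tend to zero. (2) The same for the weights `w_n = ∏_i g_i(R_i^n x)`, where the `R_i` are
invertible measure preserving maps of zero entropy, with no relation to `G` or to each other. -/
theorem result (m : ℕ) {X G : Type} [Group G] [LinearOrder G]
    (hord : ∀ a b c : G, a < b → a * c < b * c) [mX : MeasurableSpace X]
    (μ : Measure X) [IsProbabilityMeasure μ] (Φ : G →* Equiv.Perm X)
    (hΦ : ∀ g, MeasurePreserving (Φ g) μ μ) (F : ℕ → Finset G) (hF : Folner F)
    (ℓ : G → ℝ) (hℓ : ∀ g h, ℓ (g * h) = ℓ g + ℓ h) (hmono : ∀ g h, ℓ g < ℓ h → g < h)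
    (q : Fin m → ℤ → G) (lam : Fin m → Polynomial ℝ)
    (hlam : ∀ j (n : ℤ), ℓ (q j n) = (lam j).eval (n : ℝ))
    (hq : ∀ j, (∃ b : G, ∀ n, q j n = b ^ n) ∨ AEConv μ fun n => (Φ (q j n) : X → X))
    (S : Finset (Fin m)) (hS0 : ∀ v ∈ S, 0 < (lam v).natDegree)
    (hS1 : ∀ v ∈ S, ∀ w ∈ S, v ≠ w → 0 < (lam v - lam w).natDegree)
    (hS2 : ∀ v ∈ S, ∀ u ∉ S, Tendsto
      (fun n : ℤ => (lam v).eval (n : ℝ) - (lam u).eval (n : ℝ)) cofinite atTop)
    (f : Fin m → X → ℂ) (hf : ∀ j, MemLp (f j) ∞ μ) :
    (∀ᵐ x ∂μ, ∀ w : ℤ → ℂ, (∃ C : ℝ, ∀ n, ‖w n‖ ≤ C) → Deterministic w →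
      Tendsto (fun N : ℕ => ((2 * N + 1 : ℕ) : ℂ)⁻¹ *
        ∑ n ∈ Finset.Icc (-(N : ℤ)) (N : ℤ), w n * (∏ j, f j (Φ (q j n) x) -
          ∏ j, (if j ∈ S then μ[f j | pinsker μ Φ F] else f j) (Φ (q j n) x))) atTop (𝓝 0)) ∧
    (∀ (k : ℕ) (R : Fin k → Equiv.Perm X), (∀ i, MeasurePreserving (R i) μ μ ∧
        MeasurePreserving ((R i)⁻¹ : Equiv.Perm X) μ μ ∧ ZeroEntropy μ (R i)) →
      ∀ g : Fin k → X → ℂ, (∀ i, MemLp (g i) ∞ μ) → ∀ᵐ x ∂μ,
        Tendsto (fun N : ℕ => ((2 * N + 1 : ℕ) : ℂ)⁻¹ *
          ∑ n ∈ Finset.Icc (-(N : ℤ)) (N : ℤ), (∏ i, g i ((R i ^ n : Equiv.Perm X) x)) *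
            (∏ j, f j (Φ (q j n) x) -
              ∏ j, (if j ∈ S then μ[f j | pinsker μ Φ F] else f j) (Φ (q j n) x)))
          atTop (𝓝 0)) := by
  have hP : pinsker μ Φ F ≤ mX := pinsker_le F
  choose f' hf' hff' using fun j => BM_of_memLp (hf j)
  choose e he heY hee hfe using fun j =>
    Pool.Agent.TH784.KE.exists_cond (μ := μ) hP (hf' j)
  have hmain := pinsker_char hord hΦ hF hℓ hmono hlam hq hS0 hS1 hS2 (f := f')
    (e := fun j => if j ∈ S then e j else f' j) hf'
    (fun j => by
      by_cases hj : j ∈ S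
      · simp only [hj, if_true]; exact he j
      · simp only [hj, if_false]; exact hf' j)
    (fun j hj => by simp only [hj, if_true]; exact hee j)
    (fun j hj => by simp only [hj, if_false])
  have h1 : ∀ᵐ x ∂μ, ∀ (n : ℤ) (j : Fin m), f j (Φ (q j n) x) = f' j (Φ (q j n) x) := by
    rw [ae_all_iff]
    intro n
    rw [ae_all_iff]
    intro j
    exact (hΦ _).quasiMeasurePreserving.ae (hff' j)
  have h2 : ∀ᵐ x ∂μ, ∀ (n : ℤ) (j : Fin m),
      (if j ∈ S then μ[f j | pinsker μ Φ F] else f j) (Φ (q j n) x) =
        (if j ∈ S then e j else f' j) (Φ (q j n) x) := by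
    rw [ae_all_iff]
    intro n
    rw [ae_all_iff]
    intro j
    have h3 : (if j ∈ S then μ[f j | pinsker μ Φ F] else f j) =ᵐ[μ]
        (if j ∈ S then e j else f' j) := by
      by_cases hj : j ∈ S
      · simp only [hj, if_true]
        exact (condExp_congr_ae (hff' j)).trans (hee j).symm
      · simp only [hj, if_false]
        exact hff' j
    exact (hΦ _).quasiMeasurePreserving.ae h3
  have hfirst : ∀ᵐ x ∂μ, ∀ w : ℤ → ℂ, (∃ C : ℝ, ∀ n, ‖w n‖ ≤ C) → Deterministic w →
      Tendsto (fun N : ℕ => ((2 * N + 1 : ℕ) : ℂ)⁻¹ *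
        ∑ n ∈ Finset.Icc (-(N : ℤ)) (N : ℤ), w n * (∏ j, f j (Φ (q j n) x) -
          ∏ j, (if j ∈ S then μ[f j | pinsker μ Φ F] else f j) (Φ (q j n) x)))
        atTop (𝓝 0) := by
    filter_upwards [hmain, h1, h2] with x hx hx1 hx2 w hw hdet
    refine (hx w hw hdet).congr fun N => ?_
    congr 1
    refine Finset.sum_congr rfl fun n _ => ?_
    congr 2
    · exact Finset.prod_congr rfl fun j _ => (hx1 n j).symm
    · exact Finset.prod_congr rfl fun j _ => (hx2 n j).symm
  refine ⟨hfirst, fun k R hR g hg => ?_⟩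
  choose g' hg' hgg' using fun i => BM_of_memLp (hg i)
  have h3 : ∀ᵐ x ∂μ, ∀ (n : ℤ) (i : Fin k), g i ((R i ^ n : Equiv.Perm X) x) =
      g' i ((R i ^ n : Equiv.Perm X) x) := by
    rw [ae_all_iff]
    intro n
    rw [ae_all_iff]
    intro i
    have h4 : MeasurePreserving ((R i ^ n : Equiv.Perm X) : X → X) μ μ := by
      rcases Int.eq_nat_or_neg n with ⟨a, rfl | rfl⟩
      · rw [zpow_natCast, Equiv.Perm.coe_pow]
        exact (hR i).1.iterate a
      · rw [zpow_neg, zpow_natCast, ← inv_pow, Equiv.Perm.coe_pow]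
        exact (hR i).2.1.iterate a
    exact h4.quasiMeasurePreserving.ae (hgg' i)
  filter_upwards [hfirst, det_products hR hg', h3] with x hx hx2 hx3
  refine (hx _ hx2.1 hx2.2).congr fun N => ?_
  congr 1
  refine Finset.sum_congr rfl fun n _ => ?_
  congr 1
  exact Finset.prod_congr rfl fun i _ => (hx3 n i).symm

end Pool.Agent.Results.MP_4d8f14_an.PinskerFactor
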